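import Pool.Agent.Work.MP_146c52_ag.Noeth

set_option autoImplicit false

namespace Pool.Agent.Work.MP_146c52_ag

open PowerSeries TensorProduct

noncomputable section

/-- the module `(1, t^3, t^5, t^8)` -/
def M : Submodule R V where
  carrier := {f | Supp MS f}
  add_mem' := fun hf hg => Supp.add hf hg
  zero_mem' := Supp.zero
  smul_mem' := by
    intro c f hf
    change Supp MS ((c : V) * f)
    exact Supp.mul c.2 hf fun _ _ => HS_MS

theorem mem_M {f : V} : f ∈ M ↔ Supp MS f := Iff.rfl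

theorem smul_V (r : R) (f : V) : r • f = (r : V) * f := rfl

theorem coe_smul_M (r : R) (m : M) : ((r • m : M) : V) = (r : V) * (m : V) := rfl

/-- multiplication by X^33 embeds M into R -/
def toR : M →ₗ[R] R where
  toFun m := ⟨X ^ 33 * (m : V), X33_mul_mem _⟩
  map_add' a b := by
    apply Subtype.ext
    rw [Subring.coe_add]
    simp only [Submodule.coe_add]
    ring
  map_smul' r a := by
    apply Subtype.ext
    rw [RingHom.id_apply, smul_eq_mul, Subring.coe_mul, coe_smul_M]
    ring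

theorem toR_injective : Function.Injective toR := by
  intro a b h
  have h1 : (X : V) ^ 33 * (a : V) = X ^ 33 * (b : V) := congrArg Subtype.val h
  exact Subtype.ext (mul_left_cancel₀ (pow_ne_zero 33 X_ne_zero) h1)

instance : Module.Finite R M := Module.Finite.of_injective toR toR_injective

def oneM : M := ⟨1, by
  intro n hn
  have : n ≠ 0 := by rintro rfl; exact hn (Or.inl rfl)
  rw [coeff_one, if_neg this]⟩

theorem dual_apply (φ : Module.Dual R M) (m : M) : (φ m : V) = (φ oneM : V) * (m : V) := by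
  have h33 : ((X : V) ^ 33) ∈ R := Supp.X_pow (Or.inr (Or.inr (Or.inr (Or.inr le_rfl))))
  have h1 : (toR m) • oneM = (⟨X ^ 33, h33⟩ : R) • m := by
    apply Subtype.ext
    rw [coe_smul_M, coe_smul_M]
    change X ^ 33 * (m : V) * 1 = _
    rw [mul_one]
  have h2 := congrArg φ h1
  rw [map_smul, map_smul, smul_eq_mul, smul_eq_mul] at h2
  have h3 := congrArg Subtype.val h2
  rw [Subring.coe_mul, Subring.coe_mul] at h3
  change X ^ 33 * (m : V) * (φ oneM : V) = X ^ 33 * (φ m : V) at h3
  rw [mul_assoc] at h3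
  have h4 := mul_left_cancel₀ (pow_ne_zero 33 (X_ne_zero (R := ℚ))) h3
  rw [← h4, mul_comm]

theorem dual_ext {φ ψ : Module.Dual R M} (h : (φ oneM : V) = (ψ oneM : V)) : φ = ψ := by
  apply LinearMap.ext
  intro m
  apply Subtype.ext
  rw [dual_apply, dual_apply ψ, h]

/-- exponents of J -/
def JS (n : ℕ) : Prop := n = 15 ∨ n = 19 ∨ n = 30 ∨ 33 ≤ n

theorem JS_MS {a b : ℕ} (ha : JS a) (hb : MS b) : HS (a + b) := by
  unfold JS MS HS at *; omega

/-- the functional given by multiplication with an element of J -/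
def mulJ (a : V) (ha : Supp JS a) : Module.Dual R M where
  toFun m := ⟨a * (m : V), Supp.mul ha m.2 fun _ _ => JS_MS⟩
  map_add' x y := by
    apply Subtype.ext
    change a * ((x : V) + (y : V)) = a * (x : V) + a * (y : V)
    ring
  map_smul' r x := by
    apply Subtype.ext
    change a * ((r : V) * (x : V)) = (r : V) * (a * (x : V))
    ring

theorem mulJ_apply (a : V) (ha : Supp JS a) (m : M) : (mulJ a ha m : V) = a * (m : V) := rfl

theorem mulJ_one (a : V) (ha : Supp JS a) : (mulJ a ha oneM : V) = a := by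
  rw [mulJ_apply]
  exact mul_one a

theorem supp_dual (φ : Module.Dual R M) : Supp JS (φ oneM : V) := by
  have key : ∀ k, MS k → ∀ n, ¬ HS (n + k) → coeff n (φ oneM : V) = 0 := by
    intro k hk n hn
    have hm : (X : V) ^ k ∈ M := Supp.X_pow hk
    have h1 : (φ ⟨X ^ k, hm⟩ : V) = (φ oneM : V) * X ^ k := dual_apply φ ⟨X ^ k, hm⟩
    have h2 := (φ ⟨X ^ k, hm⟩).2 (n + k) hn
    rw [h1, coeff_mul_X_pow] at h2
    exact h2
  intro n hn
  by_cases h0 : HS n
  · by_cases h3 : HS (n + 3)
    · by_cases h5 : HS (n + 5)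
      · by_cases h8 : HS (n + 8)
        · exfalso
          apply hn
          unfold HS JS at *
          omega
        · exact key 8 (by unfold MS; omega) n h8
      · exact key 5 (by unfold MS; omega) n h5
    · exact key 3 (by unfold MS; omega) n h3
  · exact key 0 (by unfold MS; omega) n (by simpa using h0)

def φ15 : Module.Dual R M := mulJ (X ^ 15) (Supp.X_pow (Or.inl rfl))
def φ19 : Module.Dual R M := mulJ (X ^ 19) (Supp.X_pow (Or.inr (Or.inl rfl)))

/-- extraction of part of a series: exponents `n` with `p n`, divided by `X^h` -/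
noncomputable def part (h : ℕ) (p : ℕ → Prop) [DecidablePred p] (f : V) : V :=
  PowerSeries.mk fun n => if p (n + h) then coeff (n + h) f else 0

theorem coeff_X_pow_mul_part (h : ℕ) (p : ℕ → Prop) [DecidablePred p] (f : V) (n : ℕ) :
    coeff n (X ^ h * part h p f) = if h ≤ n ∧ p n then coeff n f else 0 := by
  rw [coeff_X_pow_mul']
  by_cases hn : h ≤ n
  · rw [if_pos hn]
    simp only [part, coeff_mk, Nat.sub_add_cancel hn, hn, true_and]
  · rw [if_neg hn, if_neg (fun h' => hn h'.1)]

theorem supp_part {A : ℕ → Prop} (h : ℕ) (p : ℕ → Prop) [DecidablePred p] (f : V)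
    (H : ∀ n, p (n + h) → A n) : Supp A (part h p f) := by
  intro n hn
  simp only [part, coeff_mk]
  rw [if_neg]
  intro h'
  exact hn (H n h')

/-- exponents in J of the shape 15 + H -/
def p15 (n : ℕ) : Prop :=
  n = 15 ∨ n = 30 ∨ (33 ≤ n ∧ n ≤ 39) ∨ (42 ≤ n ∧ n ≤ 45) ∨ 48 ≤ n
def p19 (n : ℕ) : Prop := n = 19 ∨ n = 40 ∨ n = 41 ∨ n = 46 ∨ n = 47

instance : DecidablePred p15 := fun _ => by unfold p15; infer_instance
instance : DecidablePred p19 := fun _ => by unfold p19; infer_instance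

theorem J_decomp (a : V) (ha : Supp JS a) :
    ∃ r s : R, a = X ^ 15 * (r : V) + X ^ 19 * (s : V) := by
  refine ⟨⟨part 15 p15 a, supp_part _ _ _ ?_⟩, ⟨part 19 p19 a, supp_part _ _ _ ?_⟩, ?_⟩
  · intro n hn
    unfold p15 at hn; unfold HS; omega
  · intro n hn
    unfold p19 at hn; unfold HS; omega
  · ext n
    rw [map_add, coeff_X_pow_mul_part, coeff_X_pow_mul_part]
    by_cases hn : JS n
    · by_cases h1 : p15 n
      · have h2 : ¬ p19 n := by unfold p15 p19 at *; omega
        have h3 : 15 ≤ n := by unfold p15 at h1; omega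
        rw [if_pos ⟨h3, h1⟩, if_neg (fun h => h2 h.2), add_zero]
      · have h2 : p19 n := by unfold JS p15 p19 at *; omega
        have h3 : 19 ≤ n := by unfold p19 at h2; omega
        rw [if_neg (fun h => h1 h.2), if_pos ⟨h3, h2⟩, zero_add]
    · rw [ha n hn]
      simp

theorem dual_decomp (φ : Module.Dual R M) : ∃ r s : R, φ = r • φ15 + s • φ19 := by
  obtain ⟨r, s, h⟩ := J_decomp _ (supp_dual φ)
  refine ⟨r, s, dual_ext ?_⟩
  rw [h, LinearMap.add_apply, LinearMap.smul_apply, LinearMap.smul_apply, Subring.coe_add,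
    smul_eq_mul, smul_eq_mul, Subring.coe_mul, Subring.coe_mul]
  have h1 : (φ15 oneM : V) = X ^ 15 := mulJ_one _ _
  have h2 : (φ19 oneM : V) = X ^ 19 := mulJ_one _ _
  rw [h1, h2]
  ring

theorem tensor_form (x : M ⊗[R] Module.Dual R M) :
    ∃ m₁ m₂ : M, x = m₁ ⊗ₜ[R] φ15 + m₂ ⊗ₜ[R] φ19 := by
  induction x using TensorProduct.induction_on with
  | zero => exact ⟨0, 0, by simp⟩
  | tmul m φ =>
    obtain ⟨r, s, rfl⟩ := dual_decomp φ
    refine ⟨r • m, s • m, ?_⟩
    rw [TensorProduct.tmul_add, TensorProduct.tmul_smul, TensorProduct.tmul_smul,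
      TensorProduct.smul_tmul', TensorProduct.smul_tmul']
  | add x y hx hy =>
    obtain ⟨a, b, rfl⟩ := hx
    obtain ⟨c, d, rfl⟩ := hy
    refine ⟨a + c, b + d, ?_⟩
    rw [TensorProduct.add_tmul, TensorProduct.add_tmul]
    abel

/-- relation coming from r, X^4 r in R -/
theorem rel (h : ℕ) (hh : HS h) (hh4 : HS (h + 4)) (n : M) :
    ((⟨X ^ (h + 4), Supp.X_pow hh4⟩ : R) • n) ⊗ₜ[R] φ15
      = ((⟨X ^ h, Supp.X_pow hh⟩ : R) • n) ⊗ₜ[R] φ19 := by
  rw [TensorProduct.smul_tmul, TensorProduct.smul_tmul]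
  congr 1
  apply dual_ext
  rw [LinearMap.smul_apply, LinearMap.smul_apply, smul_eq_mul, smul_eq_mul, Subring.coe_mul,
    Subring.coe_mul]
  have h1 : (φ15 oneM : V) = X ^ 15 := mulJ_one _ _
  have h2 : (φ19 oneM : V) = X ^ 19 := mulJ_one _ _
  rw [h1, h2]
  ring

/-- the exponents n with n, n+4 exponents of M -/
def NS (n : ℕ) : Prop := n = 15 ∨ 18 ≤ n

theorem NS_of {n : ℕ} (h1 : MS n) (h2 : MS (n + 4)) : NS n := by
  unfold MS NS at *; omega

def q15 (n : ℕ) : Prop := n = 15 ∨ n = 18 ∨ n = 20 ∨ n = 23 ∨ n = 30 ∨ 33 ≤ n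
def q18 (n : ℕ) : Prop := n = 21 ∨ n = 26
def q19 (n : ℕ) : Prop := n = 19 ∨ n = 22 ∨ n = 24 ∨ n = 27
def q20 (n : ℕ) : Prop := n = 25 ∨ n = 28
def q23 (n : ℕ) : Prop := n = 31
def q24 (n : ℕ) : Prop := n = 29 ∨ n = 32

instance : DecidablePred q15 := fun _ => by unfold q15; infer_instance
instance : DecidablePred q18 := fun _ => by unfold q18; infer_instance
instance : DecidablePred q19 := fun _ => by unfold q19; infer_instance
instance : DecidablePred q20 := fun _ => by unfold q20; infer_instance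
instance : DecidablePred q23 := fun _ => by unfold q23; infer_instance
instance : DecidablePred q24 := fun _ => by unfold q24; infer_instance

theorem N_decomp (f : V) (hf : Supp NS f) :
    f = X ^ 15 * part 15 q15 f + X ^ 18 * part 18 q18 f + X ^ 19 * part 19 q19 f
      + X ^ 20 * part 20 q20 f + X ^ 23 * part 23 q23 f + X ^ 24 * part 24 q24 f := by
  ext n
  simp only [map_add, coeff_X_pow_mul_part]
  by_cases hn : NS n
  · by_cases h1 : 33 ≤ n
    · have a1 : 15 ≤ n ∧ q15 n := by unfold q15; omega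
      have a2 : ¬ (18 ≤ n ∧ q18 n) := by unfold q18; omega
      have a3 : ¬ (19 ≤ n ∧ q19 n) := by unfold q19; omega
      have a4 : ¬ (20 ≤ n ∧ q20 n) := by unfold q20; omega
      have a5 : ¬ (23 ≤ n ∧ q23 n) := by unfold q23; omega
      have a6 : ¬ (24 ≤ n ∧ q24 n) := by unfold q24; omega
      rw [if_pos a1, if_neg a2, if_neg a3, if_neg a4, if_neg a5, if_neg a6]
      ring
    · have h2 : 15 ≤ n := by unfold NS at hn; omega
      have h3 : n < 33 := by omega
      unfold NS at hn
      simp only [q15, q18, q19, q20, q23, q24]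
      interval_cases n <;> simp at hn ⊢
  · rw [hf n hn]
    simp

theorem ev_injective (x : M ⊗[R] Module.Dual R M) (hx : contractRight R M x = 0) : x = 0 := by
  obtain ⟨m₁, m₂, rfl⟩ := tensor_form x
  rw [map_add, contractRight_apply, contractRight_apply] at hx
  have h1 : (X : V) ^ 15 * (m₁ : V) + X ^ 19 * (m₂ : V) = 0 := congrArg Subtype.val hx
  have h2 : (m₁ : V) = - (X ^ 4 * (m₂ : V)) := by
    have h3 : (X : V) ^ 15 * ((m₁ : V) + X ^ 4 * (m₂ : V)) = 0 := by
      rw [← h1]; ring
    rcases mul_eq_zero.1 h3 with h4 | h4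
    · exact absurd h4 (pow_ne_zero 15 X_ne_zero)
    · linear_combination h4
  have h4 : Supp NS (m₂ : V) := by
    intro n hn
    by_cases hm : MS n
    · have h5 : ¬ MS (n + 4) := fun h => hn (NS_of hm h)
      have h6 := m₁.2 (n + 4) h5
      rw [h2, map_neg, coeff_X_pow_mul, neg_eq_zero] at h6
      exact h6
    · exact m₂.2 n hm
  have hdec := N_decomp _ h4
  let n15 : M := ⟨part 15 q15 m₂, supp_part _ _ _ (by intro n hn; unfold q15 at hn; unfold MS; omega)⟩
  let n18 : M := ⟨part 18 q18 m₂, supp_part _ _ _ (by intro n hn; unfold q18 at hn; unfold MS; omega)⟩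
  let n19 : M := ⟨part 19 q19 m₂, supp_part _ _ _ (by intro n hn; unfold q19 at hn; unfold MS; omega)⟩
  let n20 : M := ⟨part 20 q20 m₂, supp_part _ _ _ (by intro n hn; unfold q20 at hn; unfold MS; omega)⟩
  let n23 : M := ⟨part 23 q23 m₂, supp_part _ _ _ (by intro n hn; unfold q23 at hn; unfold MS; omega)⟩
  let n24 : M := ⟨part 24 q24 m₂, supp_part _ _ _ (by intro n hn; unfold q24 at hn; unfold MS; omega)⟩
  have H15 : HS 15 := by unfold HS; omega
  have H18 : HS 18 := by unfold HS; omega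
  have H19 : HS 19 := by unfold HS; omega
  have H20 : HS 20 := by unfold HS; omega
  have H22 : HS 22 := by unfold HS; omega
  have H23 : HS 23 := by unfold HS; omega
  have H24 : HS 24 := by unfold HS; omega
  have H27 : HS 27 := by unfold HS; omega
  have H28 : HS 28 := by unfold HS; omega
  have e2 : m₂ = (⟨X ^ 15, Supp.X_pow H15⟩ : R) • n15 + (⟨X ^ 18, Supp.X_pow H18⟩ : R) • n18
      + (⟨X ^ 19, Supp.X_pow H19⟩ : R) • n19 + (⟨X ^ 20, Supp.X_pow H20⟩ : R) • n20
      + (⟨X ^ 23, Supp.X_pow H23⟩ : R) • n23 + (⟨X ^ 24, Supp.X_pow H24⟩ : R) • n24 := by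
    apply Subtype.ext
    exact hdec
  have e1 : m₁ = - ((⟨X ^ (15 + 4), Supp.X_pow H19⟩ : R) • n15
      + (⟨X ^ (18 + 4), Supp.X_pow H22⟩ : R) • n18
      + (⟨X ^ (19 + 4), Supp.X_pow H23⟩ : R) • n19 + (⟨X ^ (20 + 4), Supp.X_pow H24⟩ : R) • n20
      + (⟨X ^ (23 + 4), Supp.X_pow H27⟩ : R) • n23
      + (⟨X ^ (24 + 4), Supp.X_pow H28⟩ : R) • n24) := by
    apply Subtype.ext
    change (m₁ : V) = - (X ^ (15 + 4) * part 15 q15 (m₂ : V) + X ^ (18 + 4) * part 18 q18 (m₂ : V)
      + X ^ (19 + 4) * part 19 q19 (m₂ : V) + X ^ (20 + 4) * part 20 q20 (m₂ : V)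
      + X ^ (23 + 4) * part 23 q23 (m₂ : V) + X ^ (24 + 4) * part 24 q24 (m₂ : V))
    rw [h2]
    conv_lhs => rw [hdec]
    ring
  rw [e1, e2]
  simp only [TensorProduct.neg_tmul, TensorProduct.add_tmul]
  rw [rel 15 H15 H19, rel 18 H18 H22, rel 19 H19 H23, rel 20 H20 H24, rel 23 H23 H27,
    rel 24 H24 H28]
  abel

theorem torsion_eq_bot : Submodule.torsion R (M ⊗[R] Module.Dual R M) = ⊥ := by
  rw [eq_bot_iff]
  intro x hx
  rw [Submodule.mem_torsion_iff] at hx
  obtain ⟨a, ha⟩ := hx
  rw [Submodule.mem_bot]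
  apply ev_injective
  have h1 : (a : R) • contractRight R M x = 0 := by
    rw [← map_smul]
    have : (a : R) • x = 0 := ha
    rw [this, map_zero]
  rw [smul_eq_mul] at h1
  rcases mul_eq_zero.1 h1 with h2 | h2
  · exact absurd h2 (nonZeroDivisors.ne_zero a.2)
  · exact h2

theorem not_free : ¬ Module.Free R (Module.Dual R M) := by
  intro hfree
  let b := Module.Free.chooseBasis R (Module.Dual R M)
  have hne : ∀ i, (b i) oneM ≠ 0 := by
    intro i h
    have : b i = 0 := dual_ext (by rw [h]; rfl)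
    exact b.ne_zero i this
  have hsub : Subsingleton (Module.Free.ChooseBasisIndex R (Module.Dual R M)) := by
    constructor
    intro i j
    by_contra hij
    have hrel : ((b j) oneM) • b i - ((b i) oneM) • b j = 0 := by
      apply dual_ext
      rw [LinearMap.sub_apply, LinearMap.smul_apply, LinearMap.smul_apply, LinearMap.zero_apply,
        smul_eq_mul, smul_eq_mul, mul_comm, sub_self]
    have h2 := congrArg (fun y => b.repr y i) hrel
    simp [Ne.symm hij] at h2
    exact hne j h2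
  have hnon : Nonempty (Module.Free.ChooseBasisIndex R (Module.Dual R M)) := by
    by_contra hcon
    rw [not_nonempty_iff] at hcon
    have h15 : φ15 = 0 := by
      apply b.repr.injective
      ext i
      exact hcon.elim i
    have h1 : (φ15 oneM : V) = X ^ 15 := mulJ_one _ _
    rw [h15] at h1
    exact pow_ne_zero 15 (X_ne_zero (R := ℚ)) h1.symm
  obtain ⟨i⟩ := hnon
  have hall : ∀ ψ : Module.Dual R M, ∃ r : R, ψ = r • b i := by
    intro ψ
    refine ⟨b.repr ψ i, ?_⟩
    conv_lhs => rw [← b.sum_repr ψ]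
    have := hsub
    rw [Fintype.sum_eq_single i (fun j hj => absurd (Subsingleton.elim j i) hj)]
  obtain ⟨r, hr⟩ := hall φ15
  obtain ⟨s, hs⟩ := hall φ19
  have h1 : (X : V) ^ 15 = (r : V) * (b i oneM : V) := by
    have : (φ15 oneM : V) = X ^ 15 := mulJ_one _ _
    rw [← this, hr]; rfl
  have h2 : (X : V) ^ 19 = (s : V) * (b i oneM : V) := by
    have : (φ19 oneM : V) = X ^ 19 := mulJ_one _ _
    rw [← this, hs]; rfl
  have ha := supp_dual (b i)
  set a : V := (b i oneM : V) with hadef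
  -- coefficient 15
  have hlow : ∀ n, n ≠ 15 → n ≤ 18 → coeff n a = 0 := by
    intro n h1 h2
    apply ha
    unfold JS; omega
  have c15 : ∀ u : V, coeff 15 (u * a) = coeff 0 u * coeff 15 a := by
    intro u
    rw [coeff_mul, Finset.sum_eq_single (0, 15)]
    · rintro ⟨p, q⟩ hpq hne
      rw [Finset.HasAntidiagonal.mem_antidiagonal] at hpq
      simp only at hpq ⊢
      rw [hlow q (by rintro rfl; apply hne; congr; omega) (by omega), mul_zero]
    · intro h; exact absurd (Finset.HasAntidiagonal.mem_antidiagonal.2 (by norm_num)) h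
  have h3 : coeff 0 (r : V) * coeff 15 a = 1 := by
    rw [← c15, ← h1, coeff_X_pow_self]
  have h4 : coeff 0 (s : V) * coeff 15 a = 0 := by
    rw [← c15, ← h2, coeff_X_pow, if_neg (by norm_num)]
  have h5 : coeff 15 a ≠ 0 := right_ne_zero_of_mul_eq_one h3
  have h6 : coeff 0 (s : V) = 0 := (mul_eq_zero.1 h4).resolve_right h5
  have h7 : coeff 19 ((s : V) * a) = 0 := by
    rw [coeff_mul]
    refine Finset.sum_eq_zero ?_
    rintro ⟨p, q⟩ hpq
    rw [Finset.HasAntidiagonal.mem_antidiagonal] at hpq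
    simp only at hpq ⊢
    by_cases hq : q ≤ 18
    · by_cases hq15 : q = 15
      · have : p = 4 := by omega
        subst this
        rw [s.2 4 (by unfold HS; omega), zero_mul]
      · rw [hlow q hq15 hq, mul_zero]
    · have : p = 0 := by omega
      subst this
      rw [h6, zero_mul]
  rw [← h2, coeff_X_pow_self] at h7
  exact one_ne_zero h7

end

end Pool.Agent.Work.MP_146c52_ag
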