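import Pool.Agent.Work.MP_146c52_ag.Ring

set_option autoImplicit false

namespace Pool.Agent.Work.MP_146c52_ag

open PowerSeries

theorem C_mem (a : ℚ) : (PowerSeries.C a : V) ∈ R := by
  intro n hn
  have : n ≠ 0 := by rintro rfl; exact hn (Or.inl rfl)
  rw [coeff_C, if_neg this]

open Classical in
/-- monomial generators of the maximal ideal -/
noncomputable def gen (h : ℕ) : R :=
  if hh : HS h ∧ h ≠ 0 then ⟨X ^ h, Supp.X_pow hh.1⟩ else 0

theorem gen_pos {h : ℕ} (hh : HS h ∧ h ≠ 0) : (gen h : V) = X ^ h := by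
  unfold gen
  rw [dif_pos hh]

theorem max_fg : (IsLocalRing.maximalIdeal R).FG := by
  classical
  refine ⟨(Finset.range 66).image gen, ?_⟩
  apply le_antisymm
  · rw [Ideal.span_le]
    intro x hx
    rw [Finset.coe_image] at hx
    obtain ⟨h, _, rfl⟩ := hx
    rw [SetLike.mem_coe, mem_max]
    unfold gen
    split_ifs with hh
    · simp [hh.2]
    · simp
  · intro f hf
    rw [mem_max] at hf
    have hdvd : (X : V) ^ 66 ∣ (f : V) - ∑ h ∈ Finset.range 66, PowerSeries.C (coeff h (f : V)) * X ^ h := by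
      rw [X_pow_dvd_iff]
      intro m hm
      rw [map_sub, map_sum]
      simp only [coeff_C_mul, coeff_X_pow, mul_ite, mul_one, mul_zero]
      rw [Finset.sum_ite_eq, if_pos (Finset.mem_range.2 hm), sub_self]
    obtain ⟨w, hw⟩ := hdvd
    have h33 : HS 33 ∧ 33 ≠ 0 := ⟨Or.inr (Or.inr (Or.inr (Or.inr le_rfl))), by norm_num⟩
    have key : f = ∑ h ∈ Finset.range 66, (⟨PowerSeries.C (coeff h (f : V)), C_mem _⟩ : R) * gen h
        + (⟨X ^ 33 * w, X33_mul_mem w⟩ : R) * gen 33 := by
      apply Subtype.ext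
      rw [Subring.coe_add, Subring.coe_mul, gen_pos h33]
      have h1 : ((∑ h ∈ Finset.range 66, (⟨PowerSeries.C (coeff h (f : V)), C_mem _⟩ : R) * gen h : R) : V)
          = ∑ h ∈ Finset.range 66, PowerSeries.C (coeff h (f : V)) * X ^ h := by
        rw [AddSubmonoidClass.coe_finsetSum]
        refine Finset.sum_congr rfl fun h _ => ?_
        rw [Subring.coe_mul]
        by_cases hh : HS h ∧ h ≠ 0
        · rw [gen_pos hh]
        · have : coeff h (f : V) = 0 := by
            by_cases h0 : h = 0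
            · subst h0
              rw [coeff_zero_eq_constantCoeff_apply]; exact hf
            · exact f.2 h fun hs => hh ⟨hs, h0⟩
          simp [this]
      rw [h1]
      have h2 : (X : V) ^ 33 * w * X ^ 33 = X ^ 66 * w := by ring
      rw [h2, ← hw]
      ring
    rw [key]
    refine Ideal.add_mem _ (Ideal.sum_mem _ fun h hh => Ideal.mul_mem_left _ _ ?_)
      (Ideal.mul_mem_left _ _ ?_)
    · exact Ideal.subset_span (by rw [Finset.coe_image]; exact ⟨h, hh, rfl⟩)
    · exact Ideal.subset_span (by rw [Finset.coe_image]; exact ⟨33, by simp, rfl⟩)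

instance noeth : IsNoetherianRing R := by
  refine IsNoetherianRing.of_prime_ne_bot fun P hP hne => ?_
  obtain ⟨x, hx, hx0⟩ := Submodule.exists_mem_ne_zero_of_ne_bot hne
  have h1 : IsLocalRing.maximalIdeal R ≤ P :=
    (max_le_radical x hx0).trans ((Ideal.IsRadical.radical_le_iff hP.isRadical).2
      ((Ideal.span_singleton_le_iff_mem P).2 hx))
  have h2 : P = IsLocalRing.maximalIdeal R :=
    le_antisymm (IsLocalRing.le_maximalIdeal hP.ne_top) h1
  rw [h2]
  exact max_fg

end Pool.Agent.Work.MP_146c52_ag
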