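import Mathlib

set_option autoImplicit false

namespace Pool.Agent.Work.MP_146c52_ag

open PowerSeries

/-- power series over the rationals -/
abbrev V := PowerSeries ℚ

/-- the numerical semigroup generated by 15,18,19,20,21,22,23,24,27,28,29 -/
def HS (n : ℕ) : Prop :=
  n = 0 ∨ n = 15 ∨ (18 ≤ n ∧ n ≤ 24) ∨ (27 ≤ n ∧ n ≤ 30) ∨ 33 ≤ n

/-- the exponents of the module `(1, t^3, t^5, t^8)` -/
def MS (n : ℕ) : Prop := n = 0 ∨ n = 3 ∨ n = 5 ∨ n = 8 ∨ n = 15 ∨ 18 ≤ n

theorem HS_add {a b : ℕ} (ha : HS a) (hb : HS b) : HS (a + b) := by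
  unfold HS at *; omega

theorem HS_MS {a b : ℕ} (ha : HS a) (hb : MS b) : MS (a + b) := by
  unfold HS MS at *; omega

/-- supported on a set of exponents -/
def Supp (A : ℕ → Prop) (f : V) : Prop := ∀ n, ¬ A n → coeff n f = 0

theorem Supp.mul {A B C : ℕ → Prop} {f g : V} (hf : Supp A f) (hg : Supp B g)
    (hABC : ∀ a b, A a → B b → C (a + b)) : Supp C (f * g) := by
  intro n hn
  rw [coeff_mul]
  refine Finset.sum_eq_zero fun p hp => ?_
  rw [Finset.HasAntidiagonal.mem_antidiagonal] at hp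
  by_cases h1 : A p.1
  · by_cases h2 : B p.2
    · exact absurd (hp ▸ hABC _ _ h1 h2) hn
    · rw [hg _ h2, mul_zero]
  · rw [hf _ h1, zero_mul]

theorem Supp.add {A : ℕ → Prop} {f g : V} (hf : Supp A f) (hg : Supp A g) : Supp A (f + g) := by
  intro n hn
  rw [map_add, hf n hn, hg n hn, add_zero]

theorem Supp.neg {A : ℕ → Prop} {f : V} (hf : Supp A f) : Supp A (-f) := by
  intro n hn
  rw [map_neg, hf n hn, neg_zero]

theorem Supp.zero {A : ℕ → Prop} : Supp A (0 : V) := by
  intro n _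
  simp

theorem Supp.mono {A B : ℕ → Prop} {f : V} (hf : Supp A f) (h : ∀ n, A n → B n) : Supp B f :=
  fun n hn => hf n fun h' => hn (h n h')

theorem Supp.X_pow {A : ℕ → Prop} {n : ℕ} (h : A n) : Supp A ((X : V) ^ n) := by
  intro m hm
  rw [coeff_X_pow, if_neg]
  rintro rfl
  exact hm h

theorem Supp.X_pow_mul {A : ℕ → Prop} {k : ℕ} {f : V} (h : ∀ n, k ≤ n → A n) :
    Supp A ((X : V) ^ k * f) := by
  intro m hm
  rw [coeff_X_pow_mul', if_neg]
  intro h'
  exact hm (h m h')

/-- the ring -/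
def R : Subring V where
  carrier := {f | Supp HS f}
  mul_mem' := fun hf hg => Supp.mul hf hg fun _ _ => HS_add
  one_mem' := by
    intro n hn
    have : n ≠ 0 := by rintro rfl; exact hn (Or.inl rfl)
    rw [coeff_one, if_neg this]
  add_mem' := fun hf hg => Supp.add hf hg
  zero_mem' := Supp.zero
  neg_mem' := fun hf => Supp.neg hf

theorem mem_R {f : V} : f ∈ R ↔ Supp HS f := Iff.rfl

theorem inv_mem_R {f : V} (hf : f ∈ R) (h0 : constantCoeff f ≠ 0) : f⁻¹ ∈ R := by
  rw [mem_R] at *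
  have h1 : f * f⁻¹ = 1 := PowerSeries.mul_inv_cancel f h0
  intro n
  induction n using Nat.strong_induction_on with
  | _ n ih =>
    intro hn
    have hn0 : n ≠ 0 := by rintro rfl; exact hn (Or.inl rfl)
    have h2 : coeff n (f * f⁻¹) = 0 := by rw [h1, coeff_one, if_neg hn0]
    rw [coeff_mul, Finset.sum_eq_single (0, n)] at h2
    · rcases mul_eq_zero.1 h2 with h3 | h3
      · rw [coeff_zero_eq_constantCoeff_apply] at h3
        exact absurd h3 h0
      · exact h3
    · rintro ⟨i, j⟩ hij hne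
      rw [Finset.HasAntidiagonal.mem_antidiagonal] at hij
      simp only at hij ⊢
      by_cases hi : HS i
      · have hi0 : i ≠ 0 := by
          rintro rfl
          apply hne
          rw [zero_add] at hij
          rw [hij]
        have hj : ¬ HS j := fun hj => hn (hij ▸ HS_add hi hj)
        rw [ih j (by omega) hj, mul_zero]
      · rw [hf i hi, zero_mul]
    · intro h; exact absurd (Finset.HasAntidiagonal.mem_antidiagonal.2 (zero_add n)) h

theorem isUnit_iff (f : R) : IsUnit f ↔ constantCoeff (f : V) ≠ 0 := by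
  constructor
  · intro h h0
    have : IsUnit (f : V) := h.map (R.subtype)
    have := (isUnit_constantCoeff (f : V) this)
    rw [h0] at this
    exact not_isUnit_zero this
  · intro h
    refine IsUnit.of_mul_eq_one ⟨(f : V)⁻¹, inv_mem_R f.2 h⟩ ?_
    apply Subtype.ext
    exact PowerSeries.mul_inv_cancel (f : V) h

instance : IsLocalRing R := by
  refine IsLocalRing.of_nonunits_add ?_
  intro a b ha hb
  rw [mem_nonunits_iff, isUnit_iff, not_not] at *
  rw [Subring.coe_add, map_add, ha, hb, add_zero]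

theorem mem_max (f : R) : f ∈ IsLocalRing.maximalIdeal R ↔ constantCoeff (f : V) = 0 := by
  rw [IsLocalRing.mem_maximalIdeal, mem_nonunits_iff, isUnit_iff, not_not]

theorem X33_mul_mem (g : V) : (X : V) ^ 33 * g ∈ R :=
  Supp.X_pow_mul fun _ h => Or.inr (Or.inr (Or.inr (Or.inr h)))

/-- every nonzero element divides a power of X in V -/
theorem exists_dvd_X_pow (f : V) (hf : f ≠ 0) : ∃ n, f ∣ (X : V) ^ n := by
  obtain ⟨n, hn⟩ := IsDiscreteValuationRing.eq_unit_mul_pow_irreducible hf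
    (PowerSeries.X_irreducible (R := ℚ))
  obtain ⟨u, hu⟩ := hn
  exact ⟨n, ((u⁻¹ : Vˣ) : V), by rw [hu]; ring_nf; simp [mul_comm]⟩

theorem max_le_radical (x : R) (hx : x ≠ 0) :
    IsLocalRing.maximalIdeal R ≤ Ideal.radical (Ideal.span {x}) := by
  intro g hg
  rw [mem_max] at hg
  have hx' : (x : V) ≠ 0 := fun h => hx (Subtype.ext h)
  obtain ⟨n, z, hz⟩ := exists_dvd_X_pow (x : V) hx'
  have hXg : (X : V) ∣ (g : V) := X_dvd_iff.2 hg
  obtain ⟨w, hw⟩ := pow_dvd_pow_of_dvd hXg (n + 33)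
  refine ⟨n + 33, ?_⟩
  rw [Ideal.mem_span_singleton]
  refine ⟨⟨X ^ 33 * (z * w), X33_mul_mem _⟩, ?_⟩
  apply Subtype.ext
  rw [Subring.coe_pow, Subring.coe_mul, hw, pow_add, hz]
  ring

theorem notField : ¬ IsField R := by
  intro h
  have hX : ((X : V) ^ 33) ∈ R := Supp.X_pow (Or.inr (Or.inr (Or.inr (Or.inr le_rfl))))
  have hne : (⟨X ^ 33, hX⟩ : R) ≠ 0 := by
    intro h'
    have := congrArg Subtype.val h'
    exact pow_ne_zero 33 (X_ne_zero (R := ℚ)) this
  have hu : IsUnit (⟨X ^ 33, hX⟩ : R) := by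
    obtain ⟨y, hy⟩ := h.mul_inv_cancel hne
    exact IsUnit.of_mul_eq_one y hy
  rw [isUnit_iff] at hu
  apply hu
  simp

theorem krullDim : ringKrullDim R = 1 :=
  ringKrullDim_eq_one_iff_of_isLocalRing_isDomain.2 ⟨notField, max_le_radical⟩

end Pool.Agent.Work.MP_146c52_ag
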